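import Pool.Agent.VC.Final2
import Pool.Agent.VC.SlopeA

set_option autoImplicit false

open MeasureTheory Set Filter Topology
open scoped ENNReal Real

namespace Pool.Agent.Results.MP_0b5e13_an.CornerSets

/-- `side lam k = lam 0 * lam 1 * ⋯ * lam (k - 1)`: the side of the squares of generation `k` -/
noncomputable def side (lam : ℕ → ℝ) : ℕ → ℝ
  | 0 => 1
  | k + 1 => lam k * side lam k

/-- the corner Cantor set with ratios `lam k`: both coordinates run through the linear Cantor set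
of the sums `∑ e k * (side lam k - side lam (k + 1))`, `e k ∈ {0, 1}` -/
def corner (lam : ℕ → ℝ) : Set ℂ :=
  {w | ∃ e e' : ℕ → ℝ, (∀ k, e k = 0 ∨ e k = 1) ∧ (∀ k, e' k = 0 ∨ e' k = 1) ∧
    HasSum (fun k => e k * (side lam k - side lam (k + 1))) w.re ∧
    HasSum (fun k => e' k * (side lam k - side lam (k + 1))) w.im}

/-- stage `n` of the construction: `4 ^ n` closed squares of side `side lam n` -/
def stage (lam : ℕ → ℝ) (n : ℕ) : Set ℂ :=
  {w | ∃ e e' : ℕ → ℝ, (∀ k, e k = 0 ∨ e k = 1) ∧ (∀ k, e' k = 0 ∨ e' k = 1) ∧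
    w.re - ∑ k ∈ Finset.range n, e k * (side lam k - side lam (k + 1)) ∈ Icc 0 (side lam n) ∧
    w.im - ∑ k ∈ Finset.range n, e' k * (side lam k - side lam (k + 1)) ∈ Icc 0 (side lam n)}

/-- the sum of the squared densities `4^{-k} / side lam k`, `k ≤ n` -/
noncomputable def dsum (lam : ℕ → ℝ) (n : ℕ) : ℝ :=
  ∑ k ∈ Finset.range (n + 1), (1 / (4 ^ k * side lam k)) ^ 2

/-- the length of the orthogonal projection in the direction `θ`, as in the frozen statement -/
noncomputable def len (θ : ℝ) (E : Set ℂ) : ℝ≥0∞ :=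
  volume ((fun w : ℂ => w.re * Real.cos θ + w.im * Real.sin θ) '' E)

/-- the Favard length, as in the frozen statement -/
noncomputable def fav (E : Set ℂ) : ℝ≥0∞ := ∫⁻ θ in Ioc (0:ℝ) π, len θ E

/-- the analytic capacity: the supremum of `|f'(∞)|` over the functions `f` holomorphic off
`E` and bounded by one, where `f'(∞) = lim z (f z - f ∞)` -/
noncomputable def cap (E : Set ℂ) : ℝ≥0∞ :=
  sSup {x : ℝ≥0∞ | ∃ (f : ℂ → ℂ) (c a : ℂ), DifferentiableOn ℂ f Eᶜ ∧
    (∀ z ∈ Eᶜ, ‖f z‖ ≤ 1) ∧ Tendsto (fun z : ℂ => z * (f z - c)) (cocompact ℂ) (𝓝 a) ∧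
    x = ‖a‖ₑ}

lemma side_eq (lam : ℕ → ℝ) (k : ℕ) : side lam k = VC.side lam k := by
  induction k with
  | zero => rfl
  | succ k ih => rw [side, VC.side, ih]

lemma corner_eq (lam : ℕ → ℝ) : corner lam = VC.corner lam := by
  ext w
  simp only [corner, VC.corner, VC.lin, mem_ofPred_eq, side_eq]
  constructor
  · rintro ⟨e, e', h1, h2, h3, h4⟩
    exact ⟨⟨e, h1, h3⟩, ⟨e', h2, h4⟩⟩
  · rintro ⟨⟨e, h1, h3⟩, ⟨e', h2, h4⟩⟩
    exact ⟨e, e', h1, h2, h3, h4⟩

lemma stage_eq (lam : ℕ → ℝ) (n : ℕ) : stage lam n = VC.stage lam n := by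
  ext w
  simp only [stage, VC.stage, VC.linStage, mem_ofPred_eq, side_eq]
  constructor
  · rintro ⟨e, e', h1, h2, h3, h4⟩
    exact ⟨⟨e, h1, h3⟩, ⟨e', h2, h4⟩⟩
  · rintro ⟨⟨e, h1, h3⟩, ⟨e', h2, h4⟩⟩
    exact ⟨e, e', h1, h2, h3, h4⟩

lemma dsum_eq (lam : ℕ → ℝ) (n : ℕ) : dsum lam n = VC.SS lam (n + 1) := by
  simp only [dsum, VC.SS, VC.dens, side_eq]

/-- Let `lam : ℕ → ℝ` be any sequence of ratios in `[1/4, 1/2]` and `E = corner lam` the corner
Cantor set with these ratios.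

(1) For every `ε > 0` there is `C`, independent of the ratios, such that for all `n` the
projection of `stage lam n` in the direction `θ` has length at most `C / √(dsum lam n)`, for all
`θ` in `(0,π]` off a set of measure at most `ε`.

(2) For every `ε > 0` there is `c > 0`, independent of the ratios, such that the analytic capacity
of `E` is at least `c` times the length of its projection in the direction `θ`, for all `θ` in
`(0,π]` off a set of measure at most `ε`, and the same holds for every stage.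

(3) Vitushkin's implication for these sets: positive Favard length implies positive capacity. -/
theorem result :
    (∀ ε : ℝ, 0 < ε → ∃ C : ℝ, 0 < C ∧ ∀ lam : ℕ → ℝ, (∀ k, 1 / 4 ≤ lam k ∧ lam k ≤ 1 / 2) →
      ∀ n : ℕ, volume {θ | θ ∈ Ioc 0 π ∧ ENNReal.ofReal C <
        len θ (stage lam n) * ENNReal.ofReal (Real.sqrt (dsum lam n))} ≤ ENNReal.ofReal ε) ∧
    (∀ ε : ℝ, 0 < ε → ∃ c : ℝ, 0 < c ∧ ∀ lam : ℕ → ℝ, (∀ k, 1 / 4 ≤ lam k ∧ lam k ≤ 1 / 2) →
      volume {θ | θ ∈ Ioc 0 π ∧ cap (corner lam) < ENNReal.ofReal c * len θ (corner lam)} ≤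
        ENNReal.ofReal ε ∧
      ∀ n : ℕ, volume {θ | θ ∈ Ioc 0 π ∧ cap (stage lam n) <
        ENNReal.ofReal c * len θ (stage lam n)} ≤ ENNReal.ofReal ε) ∧
    (∀ lam : ℕ → ℝ, (∀ k, 1 / 4 ≤ lam k ∧ lam k ≤ 1 / 2) →
      IsCompact (corner lam) ∧ (0 < fav (corner lam) → 0 < cap (corner lam))) := by
  have hS : VC.SlopeStmt := fun ε hε => VC.slopeA ε hε
  simp only [corner_eq, stage_eq, dsum_eq]
  refine ⟨fun ε hε => VC.angleA hS ε hε, fun ε hε => VC.final2 hS ε hε, ?_⟩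
  intro lam hl
  refine ⟨VC.isCompact_corner lam (fun k => ⟨by linarith [(hl k).1], (hl k).2⟩), ?_⟩
  intro h
  exact VC.vitushkin2 hS lam hl h

end Pool.Agent.Results.MP_0b5e13_an.CornerSets
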