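import Pool.Agent.H52F.Level

set_option autoImplicit false

open MeasureTheory Set Filter Topology
open scoped ENNReal Real

namespace Pool.Agent.Results.MP_0b5e13_an.GenerationRotations

open Pool.Agent.H52F

/-- The homogeneous Cantor set with digits `z n u`, `u < b n`, in generation `n`, the whole
generation being turned by the angle `φ n`: the set of the sums `∑ exp (i φ n) z n (σ n)`. -/
def cantor (b : ℕ → ℕ) (z : ℕ → ℕ → ℂ) (φ : ℕ → ℝ) : Set ℂ :=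
  {w | ∃ σ : ℕ → ℕ, (∀ n, σ n < b n) ∧
    w = ∑' n, Complex.exp (Complex.I * φ n) * z n (σ n)}

/-- mean inverse distance of the digits of generation `n`:
`(b n)^(-2)` times the sum of `1/|z n i - z n j|` over `i ≠ j` -/
noncomputable def digitEnergy (b : ℕ → ℕ) (z : ℕ → ℕ → ℂ) (n : ℕ) : ℝ :=
  (∑ i : Fin (b n), ∑ j : Fin (b n), if i = j then 0 else 1 / ‖z n i - z n j‖) / (b n : ℝ) ^ 2

/-- `∑ digitEnergy n / (b 0 ⋯ b (n-1))` -/
noncomputable def energySum (b : ℕ → ℕ) (z : ℕ → ℕ → ℂ) : ℝ≥0∞ :=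
  ∑' n, ENNReal.ofReal (digitEnergy b z n / ∏ k ∈ Finset.range n, (b k : ℝ))

lemma cantor_eq (b : ℕ → ℕ) (z : ℕ → ℕ → ℂ) (φ : ℕ → ℝ) :
    cantor b z φ = pt (fun v : List ℕ => v.length) (lz z) φ [] '' Br (lb b) [] := by
  ext w
  simp only [cantor, Br, pt, mem_ofPred_eq, mem_image, List.nil_append, lb, length_cut]
  have h : ∀ (σ : ℕ → ℕ) (n : ℕ), lz z (cut σ (n + 1)) = z n (σ n) := by
    intro σ n
    rw [cut, lz_append, length_cut]
  simp only [h]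
  constructor
  · rintro ⟨σ, h1, h2⟩
    exact ⟨σ, h1, h2.symm⟩
  · rintro ⟨σ, h1, h2⟩
    exact ⟨σ, h1, h2.symm⟩

/-- One independent uniform angle per generation: the expected Favard length is at most
`C / energySum` and the analytic capacity of every rearrangement is at least `c / energySum`. -/
theorem result (N : ℕ) (b : ℕ → ℕ) (z : ℕ → ℕ → ℂ) (ρ : ℕ → ℝ) (δ : ℝ) (hδ : 0 < δ)
    (hb : ∀ n, 2 ≤ b n ∧ b n ≤ N) (hρ : ∀ n, 0 < ρ n)
    (hin : ∀ n, ∀ u < b n, ‖z n u‖ + ρ (n + 1) ≤ ρ n)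
    (hsep : ∀ n, ∀ i < b n, ∀ j < b n, i ≠ j →
      (1 + δ) * (2 * ρ (n + 1)) ≤ ‖z n i - z n j‖) :
    (∀ φ : ℕ → ℝ, IsCompact (cantor b z φ)) ∧
    Measurable (fun φ : ℕ → ℝ => favard (cantor b z φ)) ∧
    (∫⁻ φ, favard (cantor b z φ) ∂(Measure.infinitePi (fun _ : ℕ => unif)) ≤
      ENNReal.ofReal (2 * π ^ 2 * N ^ 2) * (energySum b z)⁻¹) ∧
    ∀ ψ : ℕ → ℝ, ENNReal.ofReal (δ / (80 * (1 + δ))) * (energySum b z)⁻¹ ≤
      anCap (cantor b z ψ) := by
  simp only [cantor_eq]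
  exact level hb hρ hδ hin hsep

end Pool.Agent.Results.MP_0b5e13_an.GenerationRotations
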