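import Pool.Agent.H52F.Main

set_option autoImplicit false

open MeasureTheory Set Filter Topology
open scoped ENNReal Real

namespace Pool.Agent.Results.MP_0b5e13_an.TreeRotations

open Pool.Agent.H52F

/-- The Cantor set with `b v` children at the vertex `v`, displacement `z v` of the centre of the
disc `v` from the centre of its parent, all displacements of the children of `v` being turned
by the angle `φ v`: the set of the sums `∑ exp (i φ(σ|n)) z(σ|(n+1))` over the infinite
branches `σ` of the tree (`cut σ n` is the list of the first `n` entries of `σ`). -/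
def cantor (b : List ℕ → ℕ) (z : List ℕ → ℂ) (φ : List ℕ → ℝ) : Set ℂ :=
  {w | ∃ σ : ℕ → ℕ, (∀ n, σ n < b (cut σ n)) ∧
    w = ∑' n, Complex.exp (Complex.I * φ (cut σ n)) * z (cut σ (n + 1))}

lemma cantor_eq (b : List ℕ → ℕ) (z : List ℕ → ℂ) (φ : List ℕ → ℝ) :
    cantor b z φ = pt (fun v => v) z φ [] '' Br b [] := by
  ext w
  simp only [cantor, Br, pt, mem_ofPred_eq, mem_image, List.nil_append]
  constructor
  · rintro ⟨σ, h1, h2⟩
    exact ⟨σ, h1, h2.symm⟩
  · rintro ⟨σ, h1, h2⟩
    exact ⟨σ, h1, h2.symm⟩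

/-- Rotate the contents of every disc of a separated nested disc system about its centre by
independent uniform angles. The expected Favard length of the resulting Cantor set is at most a
constant times the analytic capacity of every one of these sets. -/
theorem result (N : ℕ) (hN : 1 ≤ N) (b : List ℕ → ℕ) (z : List ℕ → ℂ) (ρ : List ℕ → ℝ)
    (δ κ : ℝ) (hδ : 0 < δ) (hκ : κ < 1) (hb : ∀ v, b v ≤ N) (hρ : ∀ v, 0 < ρ v)
    (hin : ∀ v, ∀ u < b v, ‖z (v ++ [u])‖ + ρ (v ++ [u]) ≤ ρ v)
    (hsep : ∀ v, ∀ i < b v, ∀ j < b v, i ≠ j →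
      (1 + δ) * (ρ (v ++ [i]) + ρ (v ++ [j])) ≤ ‖z (v ++ [i]) - z (v ++ [j])‖)
    (hsh : ∀ v, ∀ u < b v, ρ (v ++ [u]) ≤ κ * ρ v) :
    (∀ φ : List ℕ → ℝ, IsCompact (cantor b z φ)) ∧
    Measurable (fun φ : List ℕ → ℝ => favard (cantor b z φ)) ∧
    ∀ ψ : List ℕ → ℝ,
      ∫⁻ φ, favard (cantor b z φ) ∂(Measure.infinitePi (fun _ : List ℕ => unif)) ≤
        ENNReal.ofReal (32 * π ^ 2 * N ^ 2 * (1 + δ) / δ) * anCap (cantor b z ψ) := by
  simp only [cantor_eq]
  apply averaged hN hb hρ hδ hκ hin hsep hsh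
  · intro v w hw h
    apply hw
    simpa using h
  · intro v i _ j _ hij
    right
    intro w w' h
    rw [List.append_assoc, List.append_assoc, List.append_cancel_left_eq] at h
    simp only [List.singleton_append, List.cons.injEq] at h
    exact hij h.1

end Pool.Agent.Results.MP_0b5e13_an.TreeRotations
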